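import Pool.Agent.Run7.h504.Fam

/-!
# Primes `q` for which all `d_i q + a_i` are primes: constants from arbitrary families of nearly minimal energy

For almost all vectors `(a_1, ..., a_s)` of constants taken from ARBITRARY families of integers whose additive energy
of some fixed order `h` is nearly minimal, the formula of Hardy and Littlewood holds for the number of the primes `q` for
which all the numbers `d_i q + a_i` are primes, for ALL the slopes `d_i ≤ log ^ A N` at the same time. For `s = 1` this is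
the number of the primes `q` with `a + q d` prime; the pair `(a, d)` is admissible in this case if and only if
`gcd (a, d) = 1` and `2 ∣ a d`. The families may be very thin: `x ≥ N ^ (1 / h)` members are enough, for example.

Method: for one random member `a` of such a family the sum of `G n * (Λ - λ_z) (n + a)` over `n ≤ N` is small on average
for ARBITRARY coefficients `G` (`Pool.Agent.H560R3.GB.lam_e`, starting files); with coefficients supported on the multiples
of `d` this replaces the von Mangoldt function by the sieve model along the progression `d q + a`, uniformly in `d`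
(`Pool.Agent.N699.ST.ws_all`, starting files).
-/

set_option autoImplicit false

namespace Pool.Agent.Results.MP_8bf9c2_nt.FamiliesOfConstants

open Finset

/-- For every prime `p` there is an `r` such that `p` divides neither `r` nor any `d i * r + a i`. -/
def Admissible {s : ℕ} (d a : Fin s → ℕ) : Prop := ∀ p : ℕ, p.Prime → ∃ r : ℕ, ¬ p ∣ r ∧ ∀ i, ¬ p ∣ d i * r + a i

/-- The number of the residues `r < p` for which `p` divides `r * ∏ i, (d i * r + a i)`. -/
def nu {s : ℕ} (d a : Fin s → ℕ) (p : ℕ) : ℕ := ((range p).filter fun r => p ∣ r * ∏ i, (d i * r + a i)).card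

/-- The partial product over the primes `p ≤ z` of the singular series. -/
noncomputable def sing {s : ℕ} (d a : Fin s → ℕ) (z : ℕ) : ℝ :=
  ∏ p ∈ (Icc 1 z).filter Nat.Prime, (1 - (nu d a p : ℝ) / p) / (1 - 1 / (p : ℝ)) ^ (s + 1)

/-- The number of the primes `q ≤ x` for which all `d i * q + a i` are primes. -/
def count {s : ℕ} (d a : Fin s → ℕ) (x : ℕ) : ℕ := ((Icc 1 x).filter fun q => q.Prime ∧ ∀ i, (d i * q + a i).Prime).card

/-- The formula of Hardy and Littlewood for the primes `q ≤ x` with all `d i * q + a i` prime, where `log N` is the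
approximate size of the logarithms of the primes: the singular series converges to some `S > 0`, the number of the
solutions weighted with the von Mangoldt function is `S x`, with an error of at most `x / log ^ U N`, and the number of
the solutions is `S x / log ^ (s + 1) N`, with a relative error of at most `ε`. -/
def Formula {s : ℕ} (ε : ℝ) (U N x : ℕ) (d a : Fin s → ℕ) : Prop :=
  ∃ S : ℝ, 0 < S ∧ Filter.Tendsto (sing d a) Filter.atTop (nhds S) ∧
    |∑ n ∈ Icc 1 x, ArithmeticFunction.vonMangoldt n * ∏ i, ArithmeticFunction.vonMangoldt (d i * n + a i) - S * x| ≤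
      x / Real.log N ^ U ∧
    |(count d a x : ℝ) - S * (x / Real.log N ^ (s + 1))| ≤ ε * (S * (x / Real.log N ^ (s + 1)))

/-- The formula holds for the constants `a`, for all `j ≤ log ^ A N`, for ALL admissible slopes `d i ≤ j`, and for the
primes `q ≤ N / j`. -/
def AllSlopes {s : ℕ} (ε : ℝ) (A U N : ℕ) (a : Fin s → ℕ) : Prop :=
  ∀ (j : ℕ) (d : Fin s → ℕ), (j : ℝ) ≤ Real.log N ^ A → (∀ i, 1 ≤ d i ∧ d i ≤ j) → Admissible d a →
    Formula ε U N (N / j) d a

/-- The additive energy of order `h` of the family `f 1, ..., f x`: the number of the solutions of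
`f (v 1) + ... + f (v h) = f (w 1) + ... + f (w h)`. -/
def energy (h x : ℕ) (f : ℕ → ℕ) : ℕ :=
  (((Fintype.piFinset fun _ : Fin h => Icc 1 x) ×ˢ (Fintype.piFinset fun _ : Fin h => Icc 1 x)).filter
    fun q => ∑ i, f (q.1 i) = ∑ i, f (q.2 i)).card

/-- The number of the representations `t = f (v 1) + ... + f (v h)`, `1 ≤ v i ≤ x`. -/
def reps (h x : ℕ) (f : ℕ → ℕ) (t : ℕ) : ℕ :=
  ((Fintype.piFinset fun _ : Fin h => Icc 1 x).filter fun v => ∑ i, f (v i) = t).card

open Classical in
/-- The number of the vectors `m`, `1 ≤ m i ≤ x i`, for which `AllSlopes` fails for the constants `f i (m i)`. -/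
noncomputable def exceptions {s : ℕ} (ε : ℝ) (A U N : ℕ) (x : Fin s → ℕ) (f : Fin s → ℕ → ℕ) : ℕ :=
  ((Fintype.piFinset fun i => Icc 1 (x i)).filter fun m => ¬ AllSlopes ε A U N fun i => f i (m i)).card

lemma energy_eq (h x : ℕ) (f : ℕ → ℕ) :
    Pool.Agent.H373R2.T7.energy h x (fun m => (f m : ℤ)) = energy h x f := by
  unfold energy Pool.Agent.H373R2.T7.energy
  congr 1
  apply filter_congr
  intro q _
  change (∑ i, ((f (q.1 i) : ℕ) : ℤ) = ∑ i, ((f (q.2 i) : ℕ) : ℤ)) ↔ _
  constructor
  · intro h; exact_mod_cast h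
  · intro h; exact_mod_cast h

lemma energy_le (h x J : ℕ) (f : ℕ → ℕ) (hJ : ∀ t, reps h x f t ≤ J) : energy h x f ≤ x ^ h * J := by
  unfold energy
  rw [card_filter, sum_product]
  calc ∑ v ∈ Fintype.piFinset fun _ : Fin h => Icc 1 x, ∑ w ∈ Fintype.piFinset fun _ : Fin h => Icc 1 x,
        (if ∑ i, f (v i) = ∑ i, f (w i) then 1 else 0) ≤
      ∑ _v ∈ Fintype.piFinset fun _ : Fin h => Icc 1 x, J := by
        apply sum_le_sum
        intro v _
        rw [← card_filter]
        refine le_trans (le_of_eq ?_) (hJ (∑ i, f (v i)))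
        unfold reps
        congr 1
        apply filter_congr
        intro w _
        exact eq_comm
    _ = x ^ h * J := by
        rw [sum_const, Fintype.card_piFinset, prod_const, card_univ, Fintype.card_fin, Nat.card_Icc,
          smul_eq_mul, Nat.add_sub_cancel]

theorem first (s : ℕ) (hs : 1 ≤ s) (h : ℕ) (hh : 1 ≤ h) (A B C U : ℕ) (ε : ℝ) (hε : 0 < ε) :
    ∃ N₀ : ℕ, ∀ N : ℕ, N₀ ≤ N → ∀ (x : Fin s → ℕ) (f : Fin s → ℕ → ℕ),
      (∀ i, ∀ m ∈ Icc 1 (x i), f i m ≤ B * N) →
      (∀ i, (energy h (x i) (f i) : ℝ) * N ≤ Real.log N ^ C * (x i : ℝ) ^ (2 * h)) →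
      (exceptions ε A U N x f : ℝ) ≤ (∏ i, (x i : ℝ)) / Real.log N ^ U := by
  classical
  obtain ⟨N₀, h0⟩ := Pool.Agent.N699.ST.ws_all s hs (fun _ => Pool.Agent.Run7.h504.Fam.Law h B C) (fun _ => 1)
    (fun _ => le_rfl) 0 U A (2 * (U + 1) + A * (s + 2) + 3) rfl ε hε
    (fun _ => Pool.Agent.Run7.h504.Fam.fam_one h B C hh _)
  refine ⟨N₀ + 3, fun N hN x f hf hE => ?_⟩
  have hL1 : 1 ≤ Real.log N := by
    rw [Real.le_log_iff_exp_le (by exact_mod_cast (by omega : 0 < N))]
    have : (3 : ℝ) ≤ N := by exact_mod_cast (by omega : 3 ≤ N)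
    linarith [Real.exp_one_lt_d9]
  by_cases hx : ∀ i, 1 ≤ x i
  swap
  · push Not at hx
    obtain ⟨i, hi⟩ := hx
    have h1 : exceptions ε A U N x f = 0 := by
      unfold exceptions
      rw [card_eq_zero, filter_eq_empty_iff]
      intro m hm
      have := mem_Icc.1 (Fintype.mem_piFinset.1 hm i)
      omega
    rw [h1, Nat.cast_zero]
    exact div_nonneg (prod_nonneg fun i _ => Nat.cast_nonneg _) (by positivity)
  have hX : 0 < ∏ i, (x i : ℝ) := prod_pos fun i _ => by exact_mod_cast hx i
  have h1 := h0 N (by omega) (fun i => (Icc 1 (x i)).image (f i))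
    (fun i v => (((Icc 1 (x i)).filter fun m => f i m = v).card : ℝ) / x i)
    (fun i => ⟨x i, f i, hx i, hf i, by rw [energy_eq]; exact hE i, rfl, rfl⟩)
    (fun i v _ => by positivity) (fun _ => 0) (fun _ => by omega)
  have h2 := Pool.Agent.Run7.h504.Fam.law_pi x f
    (fun v => if ¬ Pool.Agent.N699.ST.AllS ε A U N (fun i => 0 + 1 * v i) then (1 : ℝ) else 0)
  have h3 : ∑ m ∈ Fintype.piFinset (fun i => Icc 1 (x i)),
      (if ¬ Pool.Agent.N699.ST.AllS ε A U N (fun i => 0 + 1 * f i (m i)) then (1 : ℝ) else 0) =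
      (exceptions ε A U N x f : ℝ) := by
    unfold exceptions
    rw [card_eq_sum_ones]
    push_cast
    rw [sum_filter]
    apply sum_congr rfl
    intro m _
    have e : (fun i => 0 + 1 * f i (m i)) = fun i => f i (m i) := by
      funext i
      rw [zero_add, one_mul]
    rw [e]
    by_cases hH : AllSlopes ε A U N fun i => f i (m i)
    · have hH' : ¬ ¬ Pool.Agent.N699.ST.AllS ε A U N (fun i => f i (m i)) := not_not.2 hH
      rw [if_neg (not_not.2 hH), if_neg hH']
    · have hH' : ¬ Pool.Agent.N699.ST.AllS ε A U N (fun i => f i (m i)) := hH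
      rw [if_pos hH, if_pos hH']
  have h4 : ∑ v ∈ Fintype.piFinset (fun i => (Icc 1 (x i)).image (f i)),
      (if ¬ Pool.Agent.N699.ST.AllS ε A U N (fun i => 0 + 1 * v i) then
        ∏ i, ((((Icc 1 (x i)).filter fun m => f i m = v i).card : ℝ) / x i) else 0) =
      ∑ v ∈ Fintype.piFinset (fun i => (Icc 1 (x i)).image (f i)),
      (∏ i, ((((Icc 1 (x i)).filter fun m => f i m = v i).card : ℝ) / x i)) *
        (if ¬ Pool.Agent.N699.ST.AllS ε A U N (fun i => 0 + 1 * v i) then (1 : ℝ) else 0) := by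
    apply sum_congr rfl
    intro v _
    split_ifs <;> simp
  rw [h4, h2, h3, div_le_iff₀ hX] at h1
  refine h1.trans (le_of_eq ?_)
  ring

/-- Let `s, h ≥ 1`, `A`, `B`, `C`, `U` and `ε > 0` be fixed, and let `N` be large.

(1) For `i ≤ s` let `f i 1, ..., f i (x i)` be an ARBITRARY family of natural numbers in `[0, B N]`, whose additive
energy of order `h` is at most `log ^ C N` times `(x i) ^ (2 h) / N`. Then for all but at most a proportion
`1 / log ^ U N` of the vectors `m` in the box `1 ≤ m i ≤ x i`, the constants `a i = f i (m i)` have the following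
property: for all `j ≤ log ^ A N` and ALL slopes `1 ≤ d 1, ..., d s ≤ j` for which the system is admissible, the formula
of Hardy and Littlewood holds for the number of the primes `q ≤ N / j` for which all `d i * q + a i` are primes.

(2) In particular this holds if no integer has more than `J` representations as a sum of `h` members of one of the
families (`B_h[J]`-families), and `(x i) ^ h ≥ N / log ^ C N`. -/
theorem result (s : ℕ) (hs : 1 ≤ s) (h : ℕ) (hh : 1 ≤ h) (A B C U : ℕ) (ε : ℝ) (hε : 0 < ε) :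
    (∃ N₀ : ℕ, ∀ N : ℕ, N₀ ≤ N → ∀ (x : Fin s → ℕ) (f : Fin s → ℕ → ℕ),
      (∀ i, ∀ m ∈ Icc 1 (x i), f i m ≤ B * N) →
      (∀ i, (energy h (x i) (f i) : ℝ) * N ≤ Real.log N ^ C * (x i : ℝ) ^ (2 * h)) →
      (exceptions ε A U N x f : ℝ) ≤ (∏ i, (x i : ℝ)) / Real.log N ^ U) ∧
    (∀ J : ℕ, ∃ N₀ : ℕ, ∀ N : ℕ, N₀ ≤ N → ∀ (x : Fin s → ℕ) (f : Fin s → ℕ → ℕ),
      (∀ i, ∀ m ∈ Icc 1 (x i), f i m ≤ B * N) →
      (∀ i, ∀ t, reps h (x i) (f i) t ≤ J) →
      (∀ i, (N : ℝ) ≤ Real.log N ^ C * (x i : ℝ) ^ h) →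
      (exceptions ε A U N x f : ℝ) ≤ (∏ i, (x i : ℝ)) / Real.log N ^ U) := by
  refine ⟨first s hs h hh A B C U ε hε, fun J => ?_⟩
  obtain ⟨N₀, h0⟩ := first s hs h hh A B (C + 1) U ε hε
  obtain ⟨N₁, h1⟩ := Pool.Agent.H373R2.T7.ev_L' (J + 1)
  refine ⟨N₀ + N₁ + 1, fun N hN x f hf hJ hx => ?_⟩
  apply h0 N (by omega) x f hf
  intro i
  have hL := h1 N (by omega)
  have hJ0 : (0 : ℝ) ≤ J := Nat.cast_nonneg _
  have hN0 : (0 : ℝ) ≤ N := Nat.cast_nonneg _
  have hx0 : (0 : ℝ) ≤ (x i : ℝ) ^ h := by positivity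
  have h2 : (energy h (x i) (f i) : ℝ) ≤ (x i : ℝ) ^ h * J := by exact_mod_cast energy_le h (x i) J (f i) (hJ i)
  have hL0 : 0 ≤ Real.log N := by linarith
  calc (energy h (x i) (f i) : ℝ) * N ≤ ((x i : ℝ) ^ h * J) * (Real.log N ^ C * (x i : ℝ) ^ h) :=
        mul_le_mul h2 (hx i) hN0 (mul_nonneg hx0 hJ0)
    _ = J * (Real.log N ^ C * (x i : ℝ) ^ (2 * h)) := by ring
    _ ≤ Real.log N * (Real.log N ^ C * (x i : ℝ) ^ (2 * h)) := by
        apply mul_le_mul_of_nonneg_right (by linarith) (by positivity)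
    _ = Real.log N ^ (C + 1) * (x i : ℝ) ^ (2 * h) := by ring

end Pool.Agent.Results.MP_8bf9c2_nt.FamiliesOfConstants
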