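import Pool.Agent.Run7.h783.GL.IterL

set_option autoImplicit false

/-!
# The iterates of `T : x ↦ a + d x`: one sequence of times, all patterns of primes, along narrow progressions

Let `(a, d)` be a pair of the question, different from `(0, 1)`, `T` the map `x ↦ a + d x`, and `N ≥ 1` (a multiple
of `3` if `3 ∣ d - 1` and `3 ∤ a`). For one `m ∈ {1, 2, 3}` ALL integers divisible by `m N` can be arranged in ONE
sequence `x_0, x_1, …` without repetitions such that for every `k`, for all but finitely many `i` and for every
length `l` the following holds, `μ` being the least of the numbers `x_i, …, x_(i+k)`. There is a `C` such that for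
arbitrarily large `X` and EVERY set `B` of indices `j ≤ k` there is a difference `1 ≤ D ≤ (log X)^C` such that for at
least `X / (log X)^C` numbers `q ≤ X`, at each of the `l` points `q, q + D, …, q + (l - 1) D`, the iterate
`T^(x_(i+j) - μ)` is prime for the `j` in `B` and not prime for the other `j ≤ k`.

With `B` = all indices: long progressions of primes at each term of which the whole window of iterates consists of
primes; with `t = |x_(i+1) - x_i|` the iterate `T^t`, which is the pair `(a (1 + d + ⋯ + d^(t-1)), d^t)`, has the
property of the question from some `i` on. The conjecture predicts `m = 1`.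

Proof (`Pool/Agent/Run7/h783/GL`). Walks and subgroups: two of any four translates of an infinite set of exponents are
connected by walks whose windows have the stated property, so that the connected translates form a subgroup of
index at most three, and one sequence runs through it. The input is the coloured Maynard-Tao theorem above one
quarter for linear forms with all patterns along narrow progressions (relative Szemeredi theorem inside; files
`Pool.Agent.Y827.HN`, `Pool.Agent.Y827.RO` of the starting tree).
-/

open Filter

namespace Pool.Agent.Results.MP_8bf9c2_nt.IteratesAllPatterns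

/-- **All multiples of `m N`, for some `m ≤ 3`, in one sequence of times: in the windows every pattern of prime and
not prime iterates of `x ↦ a + d x` occurs, at all terms of narrow progressions of any length, at least
`X / (log X)^C` times up to `X`.** -/
theorem result (a d : ℤ) (hd : 1 ≤ d) (hc : Int.gcd a d = 1) (h2 : 2 ∣ a * d) (hne : (a, d) ≠ (0, 1))
    (N : ℕ) (hN : 1 ≤ N) (hN3 : 3 ∣ d - 1 → ¬ 3 ∣ a → 3 ∣ N) :
    ∃ m : ℕ, 1 ≤ m ∧ m ≤ 3 ∧ ∃ x : ℕ → ℤ, Function.Injective x ∧
      Set.range x = {y | ((m * N : ℕ) : ℤ) ∣ y} ∧
      ∀ k : ℕ, ∃ i₀ : ℕ, ∀ i ≥ i₀, ∀ s ≤ k, (∀ j ≤ k, x (i + s) ≤ x (i + j)) →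
        ∀ l : ℕ, ∃ C : ℕ, ∃ᶠ X : ℕ in atTop, ∀ B ⊆ Finset.range (k + 1), ∃ D : ℕ, 1 ≤ D ∧
          (D : ℝ) ≤ (Real.log X) ^ C ∧ (X : ℝ) / (Real.log X) ^ C ≤
          ({q : ℕ | q ≤ X ∧ ∀ t < l, ∀ j ≤ k, ((∃ p : ℕ, p.Prime ∧
            (p : ℤ) = (fun y : ℤ => a + d * y)^[(x (i + j) - x (i + s)).toNat] ((q + t * D : ℕ) : ℤ)) ↔
              j ∈ B)}.ncard : ℝ) :=
  Run7.h783.GL.final_iterL a d (by omega) (Int.isCoprime_iff_gcd_eq_one.2 hc) h2
    (fun h => hne (Prod.ext h.1 h.2)) N (by omega) hN3

end Pool.Agent.Results.MP_8bf9c2_nt.IteratesAllPatterns
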