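import Pool.Agent.Run7.h962.LF.PoiFin

/-!
# Primes q for which a + qd is prime: the exact limit of nonnegative sieve weights on the primes q

The only unconditional results on Q1 (some of `k` given forms are primes simultaneously, infinitely often; Goldston, Pintz,
Yıldırım, Maynard, Tao) use nonnegative weights of level `Q`, i.e. functions `w(n)` which are sums of arbitrary
functions of the residues of `n` modulo the `d ≤ Q`.  We consider such weights on the primes `q`, and many pairs `(a, d)` at once.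
Let `T` be a set of `k` pairs `(a, d)` as in Q1 (`d ≥ 1`, `gcd(a, d) = 1`, `a ≠ 0`; the condition `2 ∣ a d` is not needed), with
`|a|, d ≤ Q^B`.  The primes `q` are represented by the integers `n` modulo `Q!` without prime factors `≤ Q`; `M` is the mean over
these `n`, and the weight `w` of level `Q` needs to be nonnegative at these `n` only.  For `R ⊆ T` let `E(R)` be
`∏_{p ≤ Q} (1 - 1/p)^(-#R)` times the mean `M` of `w(n)` times the indicator function of the `n` for which all the numbers `a + n d`,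
`(a, d) ∈ R`, have no prime factor `≤ Q`.  This is the main term which the conjecture of Dickson, Hardy and Littlewood predicts
for the mean of `w(q) ∏_{(a, d) ∈ R} Λ(|a + q d|)` over the primes `q` (the singular series being restricted to the primes
`≤ Q`).  We prove, with a constant `C` depending on `ε` only, for large `Q`:

(1) for all `r`, the sum of the `E(R)` over the `R ⊆ T` with `r` elements is at most
`(((1/2 + ε) log k + C) log Q)^r / r!` times `M(w)`;

(2) with `L = (e^(-γ)/2 + ε) log k + C`, for all integers `m ≥ L`, the mean of `w(n)` over the `n` for which at least `m` of the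
numbers `a + n d`, `(a, d) ∈ T`, have no prime factor `≤ Q` is at most `e^(m - L) (L/m)^m` times `M(w)`.

So, even if the asymptotic formula is granted for the primes `q` in progressions with `q` and all `a + q d`, `(a, d) ∈ R`, prime, with
the level of distribution `θ` (`Q = N^(θ - δ)` for `q ≤ N`), nonnegative weights on the primes `q` detect at most
`(θ/2 + o(1)) log k` prime values `a + q d` for `k` pairs `(a, d)`, and at most `((θ/2 + o(1)) log k)^r / r!` sets of `r` such prime
values; the order of magnitude `log k` is reached by the weights of Maynard and Tao (known).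

Proof.  The case `r = 1` for the integers `n` at which a given polynomial `P` has no prime factor `≤ Q`, with constants
independent of `P` (`LP.lin_poly` in `Pool/Agent/Run7/h962/LF/Gen.lean`, which extends MP_8923e7_nt.SharpLimitOfNonnegativeWeights, a
project of helpers 962, 816, 249, 420, 571, 956, 697, 743, 97, 245, 372 and 91 on starting files of helper422), is applied
with `P = x ∏_{(a, d) ∈ R} (a + x d)` and the pairs in `T \ R`; summation over the sets `R` with `r` elements bounds the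
factorial moment of order `r + 1` of the number of the `a + n d` without small prime factors by the one of order `r`.
-/

set_option autoImplicit false

open Finset

namespace Pool.Agent.Results.MP_8bf9c2_nt.LimitOfWeightsOnPrimes

/-- the weight `w(n) = ∑_{d ≤ Q} c_d(n mod d)`, an arbitrary real weight of level `Q` -/
noncomputable def weight (Q : ℕ) (c : ℕ → ℕ → ℝ) (n : ℕ) : ℝ := ∑ d ∈ Icc 1 Q, c d (n % d)

/-- the `n` modulo `Q!` without prime factors `≤ Q`, in the role of the primes `q` -/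
def units (Q : ℕ) : Finset ℕ := (range Q.factorial).filter (fun n => n.Coprime Q.factorial)

/-- the mean value over the `n` modulo `Q!` without prime factors `≤ Q` -/
noncomputable def mean (Q : ℕ) (F : ℕ → ℝ) : ℝ := (∑ n ∈ units Q, F n) / ((units Q).card : ℝ)

/-- the set of the pairs `(a, d) ∈ T` for which `a + n d` has no prime factor `p ≤ Q` -/
def free (Q : ℕ) (T : Finset (ℤ × ℕ)) (n : ℕ) : Finset (ℤ × ℕ) :=
  T.filter (fun t => ∀ p ∈ Icc 1 Q, p.Prime → ¬ (p : ℤ) ∣ t.1 + n * t.2)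

/-- the product `∏_{p ≤ Q} (1 - 1/p)^(-1)`, asymptotically equal to `e^γ log Q` -/
noncomputable def euler (Q : ℕ) : ℝ := (∏ p ∈ (Icc 1 Q).filter Nat.Prime, (1 - 1 / (p : ℝ)))⁻¹

/-- The predicted main term `E(R)` for the mean of `w(q) ∏_{(a, d) ∈ R} Λ(|a + q d|)` over the primes `q`, the singular series
being restricted to the primes `p ≤ Q`: `∏_{p ≤ Q} (1 - 1/p)^(-#R)` times the mean, over the `n` without prime factors `≤ Q`, of
the function equal to `w(n)` if the `a + n d`, `(a, d) ∈ R`, have no prime factor `≤ Q`, and to `0` otherwise. -/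
noncomputable def mainTerm (Q : ℕ) (c : ℕ → ℕ → ℝ) (R : Finset (ℤ × ℕ)) : ℝ :=
  euler Q ^ R.card * mean Q (fun n => if free Q R n = R then weight Q c n else 0)

/-- For every `ε > 0` there is `C > 0` such that the following holds for all `k ≥ 1`, all real `B`, all `Q ≥ Q₀(ε, k, B)`, every
set `T` of `k` pairs `(a, d)` with `d ≥ 1`, `gcd(a, d) = 1`, `a ≠ 0` and `|a|, d ≤ Q^B`, and every weight `w` of level `Q` with
`w(n) ≥ 0` for all `n` prime to `Q!`; let `L = (e^(-γ)/2 + ε) log k + C`.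

(1) For all `r`, the sum of the main terms `E(R)` over the `R ⊆ T` with `r` elements is at most
`(((1/2 + ε) log k + C) log Q)^r / r!` times the mean of `w`.

(2) For all integers `m ≥ L`, the mean of the function equal to `w(n)` if at least `m` of the `a + n d`, `(a, d) ∈ T`, have no
prime factor `≤ Q`, and to `0` otherwise, is at most `e^(m - L) (L/m)^m` times the mean of `w`. -/
theorem result : ∀ ε : ℝ, 0 < ε → ∃ C : ℝ, 0 < C ∧ ∀ (k : ℕ) (B : ℝ), 1 ≤ k → ∃ Q₀ : ℕ, ∀ Q : ℕ, Q₀ ≤ Q →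
    ∀ T : Finset (ℤ × ℕ), T.card = k →
    (∀ t ∈ T, 1 ≤ t.2 ∧ Int.gcd t.1 t.2 = 1 ∧ t.1 ≠ 0 ∧ |(t.1 : ℝ)| ≤ (Q : ℝ) ^ B ∧ (t.2 : ℝ) ≤ (Q : ℝ) ^ B) →
    ∀ c : ℕ → ℕ → ℝ, (∀ n : ℕ, n.Coprime Q.factorial → 0 ≤ weight Q c n) →
    ∀ L : ℝ, L = (Real.exp (-Real.eulerMascheroniConstant) / 2 + ε) * Real.log k + C →
    (∀ r : ℕ, ∑ R ∈ T.powersetCard r, mainTerm Q c R ≤
      (((1 / 2 + ε) * Real.log k + C) * Real.log Q) ^ r / (r.factorial : ℝ) * mean Q (weight Q c)) ∧
    (∀ m : ℕ, L ≤ m → mean Q (fun n => if m ≤ (free Q T n).card then weight Q c n else 0) ≤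
      Real.exp (m - L) * (L / m) ^ m * mean Q (weight Q c)) := by
  classical
  intro ε hε
  obtain ⟨C, hC, h1⟩ := Pool.Agent.Run7.h962.LP.poisson_all ε hε
  refine ⟨C, hC, fun k B0 hk => ?_⟩
  obtain ⟨B, hB⟩ : ∃ B : ℝ, B = max B0 0 := ⟨_, rfl⟩
  have hB0 : 0 ≤ B := by rw [hB]; exact le_max_right _ _
  have hB1 : B0 ≤ B := by rw [hB]; exact le_max_left _ _
  obtain ⟨Q0, h2⟩ := h1 k 1 B hk
  refine ⟨Q0 + 1, fun Q hQ T hT hTB c hc L hL => ?_⟩
  have hQ0 : Q0 ≤ Q := by omega
  have hQr : (1 : ℝ) ≤ Q := by exact_mod_cast (show 1 ≤ Q by omega)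
  have hQB : (Q : ℝ) ^ B0 ≤ (Q : ℝ) ^ B := Real.rpow_le_rpow_of_exponent_le hQr hB1
  have hone : (1 : ℝ) ≤ (Q : ℝ) ^ B := Real.one_le_rpow hQr hB0
  obtain ⟨e⟩ : Nonempty (Fin k ≃ T) := ⟨(T.equivFinOfCardEq hT).symm⟩
  have hgcd : ∀ n : ℕ, Int.gcd ((Polynomial.X : Polynomial ℤ).eval (n : ℤ)) Q.factorial = 1 ↔ n.Coprime Q.factorial := by
    intro n
    rw [Polynomial.eval_X, Int.gcd_natCast_natCast]
  have hunits : Pool.Agent.Run7.h962.LP.sif Q (Polynomial.X : Polynomial ℤ) = units Q := by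
    unfold Pool.Agent.Run7.h962.LP.sif units
    apply Finset.filter_congr
    intro n _
    exact hgcd n
  have hnp : ∀ i j : Fin k, i ≠ j →
      (((e i : ℤ × ℕ).2 : ℕ) : ℤ) * (e j : ℤ × ℕ).1 ≠ (((e j : ℤ × ℕ).2 : ℕ) : ℤ) * (e i : ℤ × ℕ).1 := by
    intro i j hij h
    apply hij
    apply e.injective
    apply Subtype.ext
    obtain ⟨h1i, h2i, h3i, -⟩ := hTB _ (e i).2
    obtain ⟨h1j, h2j, h3j, -⟩ := hTB _ (e j).2
    have hci : IsCoprime (e i : ℤ × ℕ).1 (((e i : ℤ × ℕ).2 : ℕ) : ℤ) := Int.isCoprime_iff_gcd_eq_one.2 h2i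
    have hcj : IsCoprime (e j : ℤ × ℕ).1 (((e j : ℤ × ℕ).2 : ℕ) : ℤ) := Int.isCoprime_iff_gcd_eq_one.2 h2j
    have d1 : (((e i : ℤ × ℕ).2 : ℕ) : ℤ) ∣ (((e j : ℤ × ℕ).2 : ℕ) : ℤ) := by
      apply IsCoprime.dvd_of_dvd_mul_right hci.symm
      exact Dvd.intro _ h
    have d2 : (((e j : ℤ × ℕ).2 : ℕ) : ℤ) ∣ (((e i : ℤ × ℕ).2 : ℕ) : ℤ) := by
      apply IsCoprime.dvd_of_dvd_mul_right hcj.symm
      exact Dvd.intro _ h.symm
    have h5 : (e i : ℤ × ℕ).2 = (e j : ℤ × ℕ).2 :=
      Nat.dvd_antisymm (Int.natCast_dvd_natCast.1 d1) (Int.natCast_dvd_natCast.1 d2)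
    have h6 : (e j : ℤ × ℕ).1 = (e i : ℤ × ℕ).1 := by
      rw [h5] at h
      have h7 : (((e j : ℤ × ℕ).2 : ℕ) : ℤ) ≠ 0 := by
        have : 1 ≤ (e j : ℤ × ℕ).2 := h1j
        positivity
      exact mul_left_cancel₀ h7 h
    exact Prod.ext h6.symm h5
  have h3 := h2 Q hQ0 (Polynomial.X : Polynomial ℤ) (by simp) (fun j => by
      rw [Polynomial.coeff_X]
      split_ifs
      · simpa using hone
      · simpa using (zero_le_one.trans hone))
    (fun i => (((e i : ℤ × ℕ).2 : ℕ) : ℤ)) (fun i => (e i : ℤ × ℕ).1)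
    (fun i => by
      have : 1 ≤ (e i : ℤ × ℕ).2 := (hTB _ (e i).2).1
      positivity)
    (fun i => by
      rw [Polynomial.aeval_X]
      have h4 : 1 ≤ (e i : ℤ × ℕ).2 := (hTB _ (e i).2).1
      have h5 : (e i : ℤ × ℕ).1 ≠ 0 := (hTB _ (e i).2).2.2.1
      have h6 : ((((e i : ℤ × ℕ).2 : ℕ) : ℤ) : ℚ) ≠ 0 := by
        have : (e i : ℤ × ℕ).2 ≠ 0 := by omega
        exact_mod_cast this
      have h7 : ((e i : ℤ × ℕ).1 : ℚ) ≠ 0 := by exact_mod_cast h5
      exact div_ne_zero (neg_ne_zero.2 h7) h6)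
    hnp
    (fun i => by
      have h4 := (hTB _ (e i).2).2.2.2.2
      rw [Int.cast_natCast, abs_of_nonneg (Nat.cast_nonneg _)]
      exact h4.trans hQB)
    (fun i => (hTB _ (e i).2).2.2.2.1.trans hQB) c (fun n hn => hc n ((hgcd n).1 hn))
  rw [hunits] at h3
  have hfrn : ∀ n : ℕ, Pool.Agent.Run7.h962.LP.frn Q (fun i => (((e i : ℤ × ℕ).2 : ℕ) : ℤ)) (fun i => (e i : ℤ × ℕ).1) n =
      (free Q T n).card := by
    intro n
    unfold Pool.Agent.Run7.h962.LP.frn free
    apply Finset.card_bij (fun i _ => (e i : ℤ × ℕ))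
    · intro i hi
      rw [mem_filter] at hi ⊢
      refine ⟨(e i).2, fun p hp hpp hd => hi.2 p hp hpp ?_⟩
      have h8 : (((e i : ℤ × ℕ).2 : ℕ) : ℤ) * n + (e i : ℤ × ℕ).1 =
        (e i : ℤ × ℕ).1 + n * (((e i : ℤ × ℕ).2 : ℕ) : ℤ) := by ring
      show (p : ℤ) ∣ (((e i : ℤ × ℕ).2 : ℕ) : ℤ) * n + (e i : ℤ × ℕ).1
      rw [h8]
      exact hd
    · intro i _ j _ hij
      exact e.injective (Subtype.ext hij)
    · intro t ht
      rw [mem_filter] at ht
      refine ⟨e.symm ⟨t, ht.1⟩, ?_, by simp⟩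
      rw [mem_filter]
      refine ⟨mem_univ _, fun p hp hpp hd => ht.2 p hp hpp ?_⟩
      simp only [Equiv.apply_symm_apply] at hd
      have h8 : ((t.2 : ℕ) : ℤ) * n + t.1 = t.1 + n * ((t.2 : ℕ) : ℤ) := by ring
      rw [h8] at hd
      exact hd
  simp only [hfrn] at h3
  rw [← hL] at h3
  have hLp : 0 < L := by
    have : 0 ≤ Real.log k := Real.log_natCast_nonneg k
    rw [hL]
    positivity
  have hfac : ∀ r : ℕ, (0 : ℝ) < (r.factorial : ℝ) := fun r => by exact_mod_cast Nat.factorial_pos r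
  have hsum : ∀ r : ℕ, ∑ R ∈ T.powersetCard r, mean Q (fun n => if free Q R n = R then weight Q c n else 0) =
      (∑ n ∈ units Q, weight Q c n * ((free Q T n).card.choose r : ℝ)) / ((units Q).card : ℝ) := by
    intro r
    unfold mean
    rw [← Finset.sum_div, Finset.sum_comm]
    congr 1
    apply Finset.sum_congr rfl
    intro n _
    rw [← Finset.sum_filter, Finset.sum_const, nsmul_eq_mul, mul_comm]
    congr 2
    rw [← Finset.card_powersetCard]
    congr 1
    ext R
    rw [mem_filter, mem_powersetCard, mem_powersetCard]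
    constructor
    · rintro ⟨⟨hR1, hR2⟩, hR3⟩
      refine ⟨fun h hh => ?_, hR2⟩
      have : h ∈ free Q R n := by rw [hR3]; exact hh
      unfold free at this ⊢
      rw [mem_filter] at this ⊢
      exact ⟨hR1 hh, this.2⟩
    · rintro ⟨hR1, hR2⟩
      refine ⟨⟨fun h hh => (mem_filter.1 (hR1 hh)).1, hR2⟩, ?_⟩
      unfold free
      rw [Finset.filter_eq_self]
      intro h hh
      exact (mem_filter.1 (hR1 hh)).2
  refine ⟨fun r => ?_, fun m hm => ?_⟩
  · have e1 : ∑ R ∈ T.powersetCard r, mainTerm Q c R =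
        euler Q ^ r * ∑ R ∈ T.powersetCard r, mean Q (fun n => if free Q R n = R then weight Q c n else 0) := by
      rw [Finset.mul_sum]
      apply Finset.sum_congr rfl
      intro R hR
      unfold mainTerm
      rw [(mem_powersetCard.1 hR).2]
    rw [e1, hsum r]
    unfold mean
    have h4 := h3.2 r
    rw [← mul_div_assoc, ← mul_div_assoc]
    apply div_le_div_of_nonneg_right _ (Nat.cast_nonneg _)
    rw [div_mul_eq_mul_div, le_div_iff₀ (hfac r), mul_comm]
    exact h4
  · have h4 := Pool.Agent.Run7.h962.LP.tail (S := units Q) (w := weight Q c)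
      (X := fun n => (free Q T n).card) hLp (k := k)
      (fun n => by
        rw [← hT]
        exact Finset.card_le_card (Finset.filter_subset _ _)) (fun n hn => hc n (mem_filter.1 hn).2) h3.1 m hm
    unfold mean
    rw [← Finset.sum_filter, ← mul_div_assoc]
    exact div_le_div_of_nonneg_right h4 (Nat.cast_nonneg _)

end Pool.Agent.Results.MP_8bf9c2_nt.LimitOfWeightsOnPrimes
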