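import Pool.Agent.Run7.h965.MT.Iter

/-!
# Sums, products and linear systems of exponents: iterates of all maps `x ↦ a + d x` at once

The `s`-th iterate of `T : x ↦ a + d x` is `x ↦ a (1 + d + ⋯ + d^(s-1)) + d^s x`.  Let `t_{j,0}, t_{j,1}, …`
be sequences of positive integers and `(a_j, d_j)` coprime pairs, `d_j ≥ 1`, `(a_j, d_j) ≠ (0, 1)`,
for `j = 0, 1, …` (for instance all the pairs of the question, and one and the same sequence for all of
them), and let `h` be any function, growing as fast as we like.  There are nonempty finite sets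
`W_0 < W_1 < …` such that, with `y_{j,i} = ∑_{x ∈ W_i} t_{j,x}`, for all `j`:

* for all nonempty finite `F ⊆ [j, ∞)` the iterates of `T_j` with the exponents `∑_{i ∈ F} y_{j,i}` and
  `∏_{i ∈ F} y_{j,i}` satisfy the hypotheses and the conclusion of the question;
* for all `m, k ≥ 1`, all coefficients `c_0, …, c_{m-1} ≥ 1` and all `F_0 < F_1 < ⋯ < F_{mk-1}` in
  `[j, ∞)`, lying beyond an index `i` such that `m`, `k` and the coefficients are at most `h b` for some
  `b ∈ W_i`: with `s_u = ∑_{l < m} c_l ∑_{i ∈ F_{lk+u}} y_{j,i}` for `u < k`, there are infinitely many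
  primes `q` such that `T_j^{s_0} q`, `T_j^{s_0+s_1} q`, …, `T_j^{s_0+⋯+s_{k-1}} q` are prime and no other
  form of a given finite set of linear forms has a prime value at `q`.

So one sequence `y` serves all the systems of Milliken and Taylor `{c_0 y_{F_0} + ⋯ + c_{m-1} y_{F_{m-1}}}`
at the same time, although these systems are not simultaneously partition regular.

The Maynard-Tao theorem for `m` primes (`Pool.Agent.H361R2.mtz_exists`) and the theorem on block
sequences (`Pool.Agent.W68.Mil`) are from the starting files.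
-/

set_option autoImplicit false

namespace Pool.Agent.Results.MP_8bf9c2_nt.SystemsOfIterates

open Finset

/-- The pair `(A, D)` for which `x ↦ A + D x` is the `s`-th iterate of `x ↦ a + d x`. -/
def iter (a d : ℤ) (s : ℕ) : ℤ × ℤ := (a * ∑ i ∈ range s, d ^ i, d ^ s)

/-- The hypotheses and the conclusion of the question for the pair `e = (A, D)`: `D ≥ 1`,
`gcd(A, D) = 1`, `2 ∣ A D`, and `A + D q` is prime for infinitely many primes `q`. -/
def Good (e : ℤ × ℤ) : Prop :=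
  1 ≤ e.2 ∧ Int.gcd e.1 e.2 = 1 ∧ 2 ∣ e.1 * e.2 ∧
    {q : ℕ | q.Prime ∧ ∃ p : ℕ, p.Prime ∧ (p : ℤ) = e.1 + e.2 * q}.Infinite

/-- For every finite set `E` of forms `A + D x`, `D ≥ 1`, there are infinitely many primes `q` such
that the forms in `E` with a prime value at `q` are exactly those which belong to the iterates of
`x ↦ a + d x` with the exponents `0, s 0, s 0 + s 1, …, s 0 + ⋯ + s (k - 1)`. -/
def ExactChain (a d : ℤ) (k : ℕ) (s : ℕ → ℕ) : Prop :=
  ∀ E : Finset (ℤ × ℤ), (∀ e ∈ E, 1 ≤ e.2) →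
    {q : ℕ | q.Prime ∧ ∀ e ∈ E, ((∃ p : ℕ, p.Prime ∧ (p : ℤ) = e.1 + e.2 * q) ↔
      ∃ u ≤ k, e = iter a d (∑ u' ∈ range u, s u'))}.Infinite

theorem result (t : ℕ → ℕ → ℕ) (ht : ∀ j i, 1 ≤ t j i) (a d : ℕ → ℤ) (hd : ∀ j, 1 ≤ d j)
    (had : ∀ j, Int.gcd (a j) (d j) = 1) (h1 : ∀ j, (a j, d j) ≠ (0, 1)) (h : ℕ → ℕ) :
    ∃ W : ℕ → Finset ℕ, (∀ i, (W i).Nonempty) ∧ (∀ i, ∀ x ∈ W i, ∀ y ∈ W (i + 1), x < y) ∧
      -- all finite sums and all finite products
      (∀ (j : ℕ) (F : Finset ℕ), F.Nonempty → (∀ i ∈ F, j ≤ i) →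
        (Good (iter (a j) (d j) (∑ i ∈ F, ∑ x ∈ W i, t j x)) ∧
          Good (iter (a j) (d j) (∏ i ∈ F, ∑ x ∈ W i, t j x))) ∧
        ExactChain (a j) (d j) 1 (fun _ => ∑ i ∈ F, ∑ x ∈ W i, t j x) ∧
        ExactChain (a j) (d j) 1 (fun _ => ∏ i ∈ F, ∑ x ∈ W i, t j x)) ∧
      -- all linear systems
      ∀ (j k m : ℕ) (c : ℕ → ℕ), 1 ≤ m → (∀ l < m, 1 ≤ c l) →
        ∀ F : ℕ → Finset ℕ, (∀ r < m * k, (F r).Nonempty) → (∀ r < m * k, ∀ i ∈ F r, j ≤ i) →
          (∀ r, r + 1 < m * k → ∀ i ∈ F r, ∀ i' ∈ F (r + 1), i < i') →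
          (∃ i, ∃ b ∈ W i, m ≤ h b ∧ k ≤ h b ∧ (∀ l < m, c l ≤ h b) ∧ ∀ i' ∈ F 0, i < i') →
          ExactChain (a j) (d j) k
            (fun u => ∑ l ∈ range m, c l * ∑ i ∈ F (l * k + u), ∑ x ∈ W i, t j x) := by
  obtain ⟨W, h2, h3, h4, h5⟩ := Pool.Agent.Run7.h965.MT.main_iter t ht a d hd had h1 h
  exact ⟨W, h2, h3, fun j F hF hj => ⟨⟨(h4 j F hF hj).1.good (hd j) (had j),
    (h4 j F hF hj).2.good (hd j) (had j)⟩, h4 j F hF hj⟩, h5⟩

end Pool.Agent.Results.MP_8bf9c2_nt.SystemsOfIterates
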